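import Mathlib

namespace Pool.Agent.Results.MP_69ced1_co.HalfHalf

open Sum

/-- total domination number -/
noncomputable def gt {V : Type} (G : SimpleGraph V) : ℕ :=
  sInf {k | ∃ S : Finset V, S.card = k ∧ ∀ v, ∃ w ∈ S, G.Adj v w}

def B (M : Fin 24 → Fin 24 → Prop) : SimpleGraph (Fin 24 ⊕ Fin 24) where
  Adj
    | inl r, inr c => M r c
    | inr c, inl r => M r c
    | _, _ => False
  symm := ⟨by rintro (a | a) (b | b) h <;> exact h⟩
  loopless := ⟨by rintro (a | a) h <;> exact h⟩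

lemma bound (M : Fin 24 → Fin 24 → Prop) (h0 : ∀ v, ∃ w, (B M).Adj v w) (T : Finset (Fin 24))
    (hT : T.card = 12) (h1 : ∀ c ∈ T, ∀ r, M r c → r = c) (h2 : ∀ c, ∃ r, ¬ M r c) :
    14 ≤ gt (B M) := by
  refine le_csInf ⟨_, Finset.univ, rfl, fun v => by simpa using h0 v⟩ ?_
  rintro _ ⟨S, rfl, hS⟩
  have col : ∀ r, ∃ c, inr c ∈ S ∧ M r c := fun r => by
    obtain ⟨c | c, h, e⟩ := hS (inl r)
    exacts [e.elim, ⟨c, h, e⟩]
  obtain ⟨c, hc, -⟩ := col 0
  obtain ⟨r, hr⟩ := h2 c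
  obtain ⟨d, hd, e⟩ := col r
  have : T.disjSum {c, d} ⊆ S := by
    rintro (x | x) hx
    · obtain ⟨y | y, h, e⟩ := hS (inr x)
      exacts [h1 x (by simpa using hx) y e ▸ h, e.elim]
    · rcases (by simpa using hx : x = c ∨ x = d) with rfl | rfl <;> assumption
  have := Finset.card_le_card this
  rwa [Finset.card_disjSum, hT, Finset.card_pair (by rintro rfl; exact hr e)] at this

def M (r c : Fin 24) : Prop := c < 12 ↔ r = c

instance : DecidableRel M := fun _ _ => inferInstanceAs (Decidable (_ ↔ _))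

/-- A two-factorization of K(24,24) with product of total domination numbers above 8 * 24. -/
theorem result : ∃ G₁ G₂ : SimpleGraph (Fin 24 ⊕ Fin 24), Disjoint G₁ G₂ ∧
    G₁ ⊔ G₂ = completeBipartiteGraph (Fin 24) (Fin 24) ∧ (∀ v, ∃ w, G₁.Adj v w) ∧
    (∀ v, ∃ w, G₂.Adj v w) ∧ 8 * 24 < gt G₁ * gt G₂ := by
  have n : ∀ M : Fin 24 → Fin 24 → Prop, (∀ r, ∃ c, M r c) → (∀ c, ∃ r, M r c) →
      ∀ v, ∃ w, (B M).Adj v w := by
    rintro M h1 h2 (a | a)
    exacts [(h1 a).elim fun c h => ⟨inr c, h⟩, (h2 a).elim fun c h => ⟨inl c, h⟩]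
  have a1 := n M (by decide) (by decide)
  have a2 := n (fun r c => ¬ M r c) (by decide) (by decide)
  refine ⟨B M, B fun r c => ¬ M r c, ?_, ?_, a1, a2, lt_of_lt_of_le (by norm_num) (Nat.mul_le_mul
    (bound _ a1 (Finset.univ.filter (· < 12)) (by decide) (by decide) (by decide))
    (bound _ a2 (Finset.univ.filter (12 ≤ ·)) (by decide) (by decide) (by decide)))⟩
  · rw [SimpleGraph.disjoint_left]
    rintro (a | a) (b | b) h h'
    exacts [h, h' h, h' h, h]
  · ext (a | a) (b | b) <;> simp [B, em]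

end Pool.Agent.Results.MP_69ced1_co.HalfHalf
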